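import Mathlib

/-!
# MP_133c3f_al : Leibniz algebras arising from affine algebraic racks

A Leibniz algebra over a field is algebraic if and only if it is finite-dimensional.
-/

open scoped TensorProduct

universe u v

namespace Pool.Agent.Results.MP_133c3f_al.AlgebraicIffFinite

/-- The binary operation on `R`-points of `Spec A` induced by `φ : A → A ⊗ A`. -/
noncomputable def pointOp {k A R : Type u} [Field k] [CommRing A] [Algebra k A] [CommRing R]
    [Algebra k R] (φ : A →ₐ[k] A ⊗[k] A) (x y : A →ₐ[k] R) : A →ₐ[k] R :=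
  (Algebra.TensorProduct.productMap x y).comp φ

/-- `(x ▷ y) ▷⁻¹ x = y` on points with values in every `k`-algebra `R`. -/
def ActActInv {k A : Type u} [Field k] [CommRing A] [Algebra k A]
    (act actInv : A →ₐ[k] A ⊗[k] A) : Prop :=
  ∀ (R : Type u) [CommRing R] [Algebra k R] (x y : A →ₐ[k] R),
    pointOp actInv (pointOp act x y) x = y

/-- `x ▷ (y ▷⁻¹ x) = y` on points with values in every `k`-algebra `R`. -/
def ActInvAct {k A : Type u} [Field k] [CommRing A] [Algebra k A]
    (act actInv : A →ₐ[k] A ⊗[k] A) : Prop :=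
  ∀ (R : Type u) [CommRing R] [Algebra k R] (x y : A →ₐ[k] R),
    pointOp act x (pointOp actInv y x) = y

/-- `x ▷ (y ▷ z) = (x ▷ y) ▷ (x ▷ z)` on points with values in every `k`-algebra `R`. -/
def ActDistrib {k A : Type u} [Field k] [CommRing A] [Algebra k A]
    (act : A →ₐ[k] A ⊗[k] A) : Prop :=
  ∀ (R : Type u) [CommRing R] [Algebra k R] (x y z : A →ₐ[k] R),
    pointOp act x (pointOp act y z) = pointOp act (pointOp act x y) (pointOp act x z)

/-- `(x ▷⁻¹ y) ▷⁻¹ z = (x ▷⁻¹ z) ▷⁻¹ (y ▷⁻¹ z)` on points with values in every `k`-algebra. -/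
def ActInvDistrib {k A : Type u} [Field k] [CommRing A] [Algebra k A]
    (actInv : A →ₐ[k] A ⊗[k] A) : Prop :=
  ∀ (R : Type u) [CommRing R] [Algebra k R] (x y z : A →ₐ[k] R),
    pointOp actInv (pointOp actInv x y) z =
      pointOp actInv (pointOp actInv x z) (pointOp actInv y z)

/-- `e ▷ x = x` and `x ▷ e = e` on points with values in every `k`-algebra `R`. -/
def ActUnit {k A : Type u} [Field k] [CommRing A] [Algebra k A]
    (unit : A →ₐ[k] k) (act : A →ₐ[k] A ⊗[k] A) : Prop :=
  ∀ (R : Type u) [CommRing R] [Algebra k R] (x : A →ₐ[k] R),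
    pointOp act ((Algebra.ofId k R).comp unit) x = x ∧
      pointOp act x ((Algebra.ofId k R).comp unit) = (Algebra.ofId k R).comp unit

/-- The structure of an affine algebraic rack on `Spec A`: a unit `k`-point and two operations,
given by algebra maps `A → A ⊗ A`, satisfying the rack identities on points with values in every
`k`-algebra `R`; the algebra `A` is of finite type. -/
structure AffineRack (k A : Type u) [Field k] [CommRing A] [Algebra k A] where
  finiteType : Algebra.FiniteType k A
  unit : A →ₐ[k] k
  act : A →ₐ[k] A ⊗[k] A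
  actInv : A →ₐ[k] A ⊗[k] A
  act_actInv : ActActInv act actInv
  actInv_act : ActInvAct act actInv
  act_distrib : ActDistrib act
  actInv_distrib : ActInvDistrib actInv
  act_unit : ActUnit unit act

/-- `D : A → k` is a derivation at the unit: `D (f g) = D f ε g + ε f D g`. -/
def IsDer {k A : Type u} [Field k] [CommRing A] [Algebra k A] (Q : AffineRack k A)
    (D : A →ₗ[k] k) : Prop :=
  ∀ f g : A, D (f * g) = D f * Q.unit g + Q.unit f * D g

theorem IsDer.add {k A : Type u} [Field k] [CommRing A] [Algebra k A] {Q : AffineRack k A}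
    {D E : A →ₗ[k] k} (hD : IsDer Q D) (hE : IsDer Q E) : IsDer Q (D + E) := by
  intro f g
  rw [LinearMap.add_apply, LinearMap.add_apply, LinearMap.add_apply, hD f g, hE f g]
  ring

theorem IsDer.zero {k A : Type u} [Field k] [CommRing A] [Algebra k A] (Q : AffineRack k A) :
    IsDer Q (0 : A →ₗ[k] k) := by intro f g; simp

theorem IsDer.smul {k A : Type u} [Field k] [CommRing A] [Algebra k A] {Q : AffineRack k A}
    (c : k) {D : A →ₗ[k] k} (hD : IsDer Q D) : IsDer Q (c • D) := by
  intro f g
  rw [LinearMap.smul_apply, LinearMap.smul_apply, LinearMap.smul_apply, hD f g]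
  simp only [smul_eq_mul]
  ring

/-- The bracket `[D, E] = (D ⊗ E) ∘ ∇`. -/
noncomputable def bracket {k A : Type u} [Field k] [CommRing A] [Algebra k A]
    (Q : AffineRack k A) (D E : A →ₗ[k] k) : A →ₗ[k] k :=
  LinearMap.mul' k k ∘ₗ TensorProduct.map D E ∘ₗ Q.act.toLinearMap

/-- The Leibniz algebra `q` with bracket `br` is algebraic: there is an affine algebraic rack `Q`
and a linear isomorphism `e` of `q` onto the space of derivations at the unit of `Q` that takes
`br` to the bracket. -/
def IsAlgebraic (k : Type u) [Field k] (q : Type v) [AddCommGroup q] [Module k q]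
    (br : q →ₗ[k] q →ₗ[k] q) : Prop :=
  ∃ (A : Type u) (_ : CommRing A) (_ : Algebra k A) (Q : AffineRack k A)
    (e : q →ₗ[k] (A →ₗ[k] k)), Function.Injective e ∧ (∀ D, IsDer Q D ↔ ∃ x, e x = D) ∧
      ∀ x y : q, e (br x y) = bracket Q (e x) (e y)

/-- The tangent space at the unit: the space of the derivations at the unit. -/
def tangent {k A : Type u} [Field k] [CommRing A] [Algebra k A] (Q : AffineRack k A) :
    Submodule k (A →ₗ[k] k) where
  carrier := {D | IsDer Q D}
  add_mem' := IsDer.add
  zero_mem' := IsDer.zero Q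
  smul_mem' := IsDer.smul

theorem exists_evaluation {k A : Type u} [Field k] [CommRing A] [Algebra k A]
    (Q : AffineRack k A) : ∃ (s : Finset A) (r : (A →ₗ[k] k) →ₗ[k] (s → k)),
      ∀ D, IsDer Q D → r D = 0 → D = 0 := by
  obtain ⟨s, hs⟩ := Q.finiteType.out
  let r : (A →ₗ[k] k) →ₗ[k] (s → k) :=
    { toFun := fun D i => D (i : A)
      map_add' := fun D E => rfl
      map_smul' := fun c D => rfl }
  refine ⟨s, r, fun D hDer hD => ?_⟩
  have h1 : ∀ a ∈ Algebra.adjoin k (s : Set A), D a = 0 := by
    have hone : D 1 = 0 := by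
      have h2 := hDer 1 1
      rw [mul_one, map_one Q.unit, mul_one, one_mul] at h2
      linear_combination -h2
    intro a ha
    induction ha using Algebra.adjoin_induction with
    | mem a ha => exact congrFun hD ⟨a, ha⟩
    | algebraMap c =>
      rw [Algebra.algebraMap_eq_smul_one, map_smul, hone, smul_zero]
    | add a b _ _ h2 h3 => rw [map_add, h2, h3, add_zero]
    | mul a b _ _ h2 h3 => rw [hDer a b, h2, h3, zero_mul, mul_zero, add_zero]
  ext a
  exact h1 a (hs ▸ Algebra.mem_top)

section Construction

variable {k : Type u} [Field k] {n : ℕ}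

/-- The coordinates of a point of the square-zero extension. -/
def crd {R : Type u} [CommRing R] [Algebra k R] (x : TrivSqZeroExt k (Fin n → k) →ₐ[k] R) :
    Fin n → R :=
  fun i => x (TrivSqZeroExt.inr (Pi.single i 1))

theorem crd_mul {R : Type u} [CommRing R] [Algebra k R]
    (x : TrivSqZeroExt k (Fin n → k) →ₐ[k] R) (i j : Fin n) : crd x i * crd x j = 0 := by
  unfold crd
  rw [← map_mul, TrivSqZeroExt.inr_mul_inr, map_zero]

theorem crd_ext {R : Type u} [CommRing R] [Algebra k R]
    {x y : TrivSqZeroExt k (Fin n → k) →ₐ[k] R} (h : ∀ i, crd x i = crd y i) : x = y := by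
  apply TrivSqZeroExt.algHom_ext
  intro m
  have h1 : m = ∑ i, m i • (Pi.single i (1 : k) : Fin n → k) := pi_eq_sum_univ' m
  rw [h1, TrivSqZeroExt.inr_sum, map_sum, map_sum]
  refine Finset.sum_congr rfl fun i _ => ?_
  rw [TrivSqZeroExt.inr_smul, map_smul, map_smul]
  congr 1
  exact h i

/-- All products of coordinates vanish. -/
def Z {R : Type u} [CommRing R] (v w : Fin n → R) : Prop := ∀ i j, v i * w j = 0

/-- The point with given coordinates. -/
noncomputable def mk {R : Type u} [CommRing R] [Algebra k R] (v : Fin n → R)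
    (hv : Z v v) : TrivSqZeroExt k (Fin n → k) →ₐ[k] R :=
  TrivSqZeroExt.liftEquivOfComm ⟨Fintype.linearCombination k v, by
    intro a b
    rw [Fintype.linearCombination_apply, Fintype.linearCombination_apply, Finset.sum_mul_sum]
    refine Finset.sum_eq_zero fun i _ => Finset.sum_eq_zero fun j _ => ?_
    rw [smul_mul_smul_comm, hv i j, smul_zero]⟩

theorem crd_mk {R : Type u} [CommRing R] [Algebra k R] (v : Fin n → R)
    (hv : Z v v) (i : Fin n) : crd (mk (k := k) v hv) i = v i := by
  unfold crd mk
  simp [TrivSqZeroExt.liftEquivOfComm_apply]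

/-- The `R`-bilinear extension of the bracket with structure constants `c`. -/
noncomputable def brR (R : Type u) [CommRing R] [Algebra k R] (c : Fin n → Fin n → Fin n → k) :
    (Fin n → R) →ₗ[R] (Fin n → R) →ₗ[R] (Fin n → R) :=
  LinearMap.mk₂ R (fun v w l => ∑ i, ∑ j, c i j l • (v i * w j))
    (by
      intro v v' w; funext l
      simp only [Pi.add_apply, add_mul, smul_add, Finset.sum_add_distrib])
    (by
      intro a v w; funext l
      simp only [Pi.smul_apply, smul_eq_mul, Finset.mul_sum]
      refine Finset.sum_congr rfl fun i _ => Finset.sum_congr rfl fun j _ => ?_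
      rw [mul_assoc, mul_smul_comm])
    (by
      intro v w w'; funext l
      simp only [Pi.add_apply, mul_add, smul_add, Finset.sum_add_distrib])
    (by
      intro a v w; funext l
      simp only [Pi.smul_apply, smul_eq_mul, Finset.mul_sum]
      refine Finset.sum_congr rfl fun i _ => Finset.sum_congr rfl fun j _ => ?_
      rw [mul_left_comm, mul_smul_comm])

theorem brR_apply (R : Type u) [CommRing R] [Algebra k R] (c : Fin n → Fin n → Fin n → k)
    (v w : Fin n → R) (l : Fin n) : brR R c v w l = ∑ i, ∑ j, c i j l • (v i * w j) := rfl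

theorem brR_single (R : Type u) [CommRing R] [Algebra k R] (c : Fin n → Fin n → Fin n → k)
    (i j : Fin n) (l : Fin n) :
    brR R c (Pi.single i 1) (Pi.single j 1) l = algebraMap k R (c i j l) := by
  rw [brR_apply, Finset.sum_eq_single i, Finset.sum_eq_single j]
  · rw [Pi.single_eq_same, Pi.single_eq_same, mul_one, Algebra.algebraMap_eq_smul_one]
  · intro b _ hb; rw [Pi.single_eq_of_ne hb]; simp
  · intro h; exact absurd (Finset.mem_univ _) h
  · intro b _ hb; rw [Pi.single_eq_of_ne hb]; simp
  · intro h; exact absurd (Finset.mem_univ _) h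

/-- The Leibniz identity for structure constants. -/
def LeibnizConst (c : Fin n → Fin n → Fin n → k) : Prop :=
  ∀ i j p l, ∑ m, c j p m * c i m l = ∑ m, c i j m * c m p l + ∑ m, c i p m * c j m l

theorem brR_leibniz (R : Type u) [CommRing R] [Algebra k R] (c : Fin n → Fin n → Fin n → k)
    (hc : LeibnizConst c) (v w z : Fin n → R) :
    brR R c v (brR R c w z) = brR R c (brR R c v w) z + brR R c w (brR R c v z) := by
  funext l
  have h1 : brR R c v (brR R c w z) l =
      ∑ i, ∑ j, ∑ p, (∑ m, c j p m * c i m l) • (v i * w j * z p) := by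
    rw [brR_apply]
    refine Finset.sum_congr rfl fun i _ => ?_
    simp only [brR_apply, Finset.mul_sum, Finset.smul_sum, Finset.sum_smul]
    rw [Finset.sum_comm]
    refine Finset.sum_congr rfl fun j _ => ?_
    rw [Finset.sum_comm]
    refine Finset.sum_congr rfl fun p _ => Finset.sum_congr rfl fun m _ => ?_
    rw [mul_smul_comm, smul_smul, mul_comm (c i m l), mul_assoc]
  have h2 : brR R c (brR R c v w) z l =
      ∑ i, ∑ j, ∑ p, (∑ m, c i j m * c m p l) • (v i * w j * z p) := by
    rw [brR_apply]
    simp only [brR_apply, Finset.sum_mul, Finset.smul_sum, Finset.sum_smul]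
    rw [Finset.sum_congr rfl fun m _ => Finset.sum_comm]
    rw [Finset.sum_comm]
    refine Finset.sum_congr rfl fun i _ => ?_
    rw [Finset.sum_congr rfl fun m _ => Finset.sum_comm]
    rw [Finset.sum_comm]
    refine Finset.sum_congr rfl fun j _ => ?_
    rw [Finset.sum_comm]
    refine Finset.sum_congr rfl fun p _ => Finset.sum_congr rfl fun m _ => ?_
    rw [smul_mul_assoc, smul_smul, mul_comm (c m p l)]
  have h3 : brR R c w (brR R c v z) l =
      ∑ i, ∑ j, ∑ p, (∑ m, c i p m * c j m l) • (v i * w j * z p) := by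
    rw [brR_apply]
    simp only [brR_apply, Finset.mul_sum, Finset.smul_sum, Finset.sum_smul]
    rw [Finset.sum_congr rfl fun j _ => Finset.sum_comm]
    rw [Finset.sum_comm]
    refine Finset.sum_congr rfl fun i _ => ?_
    refine Finset.sum_congr rfl fun j _ => ?_
    rw [Finset.sum_comm]
    refine Finset.sum_congr rfl fun p _ => Finset.sum_congr rfl fun m _ => ?_
    rw [mul_smul_comm, smul_smul, mul_comm (c j m l), mul_left_comm, mul_assoc]
  rw [Pi.add_apply, h1, h2, h3, ← Finset.sum_add_distrib]
  refine Finset.sum_congr rfl fun i _ => ?_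
  rw [← Finset.sum_add_distrib]
  refine Finset.sum_congr rfl fun j _ => ?_
  rw [← Finset.sum_add_distrib]
  refine Finset.sum_congr rfl fun p _ => ?_
  rw [hc i j p l, add_smul]

theorem Z.symm {R : Type u} [CommRing R] {v w : Fin n → R} (h : Z v w) : Z w v :=
  fun i j => by rw [mul_comm]; exact h j i

theorem Z.add {R : Type u} [CommRing R] {v v' w : Fin n → R} (h : Z v w) (h' : Z v' w) :
    Z (v + v') w :=
  fun i j => by rw [Pi.add_apply, add_mul, h i j, h' i j, add_zero]

theorem Z.sub {R : Type u} [CommRing R] {v v' w : Fin n → R} (h : Z v w) (h' : Z v' w) :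
    Z (v - v') w :=
  fun i j => by rw [Pi.sub_apply, sub_mul, h i j, h' i j, sub_zero]

theorem Z.br_left {R : Type u} [CommRing R] [Algebra k R] (c : Fin n → Fin n → Fin n → k)
    {v w : Fin n → R} (h : Z v w) (u : Fin n → R) : Z (brR R c v u) w := by
  intro l j
  rw [brR_apply, Finset.sum_mul]
  refine Finset.sum_eq_zero fun a _ => ?_
  rw [Finset.sum_mul]
  refine Finset.sum_eq_zero fun b _ => ?_
  rw [smul_mul_assoc, mul_right_comm, h a j, zero_mul, smul_zero]

theorem Z.br_right {R : Type u} [CommRing R] [Algebra k R] (c : Fin n → Fin n → Fin n → k)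
    {v w : Fin n → R} (h : Z v w) (u : Fin n → R) : Z (brR R c u v) w := by
  intro l j
  rw [brR_apply, Finset.sum_mul]
  refine Finset.sum_eq_zero fun a _ => ?_
  rw [Finset.sum_mul]
  refine Finset.sum_eq_zero fun b _ => ?_
  rw [smul_mul_assoc, mul_assoc, h b j, mul_zero, smul_zero]

theorem Z.br_zero {R : Type u} [CommRing R] [Algebra k R] (c : Fin n → Fin n → Fin n → k)
    {v w : Fin n → R} (h : Z v w) : brR R c v w = 0 := by
  funext l
  rw [brR_apply]
  refine Finset.sum_eq_zero fun a _ => Finset.sum_eq_zero fun b _ => ?_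
  rw [h a b, smul_zero]

theorem Z_crd {R : Type u} [CommRing R] [Algebra k R]
    (x : TrivSqZeroExt k (Fin n → k) →ₐ[k] R) : Z (crd x) (crd x) := fun i j => crd_mul x i j

/-- The rack operation on coordinates. -/
noncomputable def opv {R : Type u} [CommRing R] [Algebra k R] (c : Fin n → Fin n → Fin n → k)
    (v w : Fin n → R) : Fin n → R := w + brR R c v w

/-- The inverse rack operation on coordinates. -/
noncomputable def opiv {R : Type u} [CommRing R] [Algebra k R] (c : Fin n → Fin n → Fin n → k)
    (v w : Fin n → R) : Fin n → R := v - brR R c w v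

theorem Z_opv {R : Type u} [CommRing R] [Algebra k R] (c : Fin n → Fin n → Fin n → k)
    {v w : Fin n → R} (hw : Z w w) : Z (opv c v w) (opv c v w) := by
  have h1 : Z (opv c v w) w := hw.add (hw.br_right c v)
  exact h1.symm.add ((h1.symm).br_right c v)

theorem Z_opiv {R : Type u} [CommRing R] [Algebra k R] (c : Fin n → Fin n → Fin n → k)
    {v w : Fin n → R} (hv : Z v v) : Z (opiv c v w) (opiv c v w) := by
  have h1 : Z (opiv c v w) v := hv.sub (hv.br_right c w)
  exact h1.symm.sub ((h1.symm).br_right c w)

theorem map_brR {S R : Type u} [CommRing S] [Algebra k S] [CommRing R] [Algebra k R]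
    (f : S →ₐ[k] R) (c : Fin n → Fin n → Fin n → k) (v w : Fin n → S) (l : Fin n) :
    f (brR S c v w l) = brR R c (fun i => f (v i)) (fun i => f (w i)) l := by
  rw [brR_apply, brR_apply, map_sum]
  refine Finset.sum_congr rfl fun a _ => ?_
  rw [map_sum]
  refine Finset.sum_congr rfl fun b _ => ?_
  rw [map_smul, map_mul]

/-- The comultiplication of the rack. -/
noncomputable def nab (c : Fin n → Fin n → Fin n → k) :
    TrivSqZeroExt k (Fin n → k) →ₐ[k]
      TrivSqZeroExt k (Fin n → k) ⊗[k] TrivSqZeroExt k (Fin n → k) :=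
  mk (R := TrivSqZeroExt k (Fin n → k) ⊗[k] TrivSqZeroExt k (Fin n → k))
    (opv c (crd Algebra.TensorProduct.includeLeft) (crd Algebra.TensorProduct.includeRight))
    (Z_opv c (Z_crd _))

/-- The inverse comultiplication of the rack. -/
noncomputable def nabInv (c : Fin n → Fin n → Fin n → k) :
    TrivSqZeroExt k (Fin n → k) →ₐ[k]
      TrivSqZeroExt k (Fin n → k) ⊗[k] TrivSqZeroExt k (Fin n → k) :=
  mk (R := TrivSqZeroExt k (Fin n → k) ⊗[k] TrivSqZeroExt k (Fin n → k))
    (opiv c (crd Algebra.TensorProduct.includeLeft) (crd Algebra.TensorProduct.includeRight))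
    (Z_opiv c (Z_crd _))

theorem crd_comp {S R : Type u} [CommRing S] [Algebra k S] [CommRing R] [Algebra k R]
    (f : S →ₐ[k] R) (x : TrivSqZeroExt k (Fin n → k) →ₐ[k] S) (i : Fin n) :
    crd (f.comp x) i = f (crd x i) := rfl

theorem crd_pm_left {R : Type u} [CommRing R] [Algebra k R]
    (x y : TrivSqZeroExt k (Fin n → k) →ₐ[k] R) :
    (fun i => Algebra.TensorProduct.productMap x y
      (crd (Algebra.TensorProduct.includeLeft : TrivSqZeroExt k (Fin n → k) →ₐ[k]
        TrivSqZeroExt k (Fin n → k) ⊗[k] TrivSqZeroExt k (Fin n → k)) i)) = crd x := by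
  funext i
  rw [← crd_comp (S := TrivSqZeroExt k (Fin n → k) ⊗[k] TrivSqZeroExt k (Fin n → k)),
    Algebra.TensorProduct.productMap_left]

theorem crd_pm_right {R : Type u} [CommRing R] [Algebra k R]
    (x y : TrivSqZeroExt k (Fin n → k) →ₐ[k] R) :
    (fun i => Algebra.TensorProduct.productMap x y
      (crd (Algebra.TensorProduct.includeRight : TrivSqZeroExt k (Fin n → k) →ₐ[k]
        TrivSqZeroExt k (Fin n → k) ⊗[k] TrivSqZeroExt k (Fin n → k)) i)) = crd y := by
  funext i
  rw [← crd_comp (S := TrivSqZeroExt k (Fin n → k) ⊗[k] TrivSqZeroExt k (Fin n → k)),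
    Algebra.TensorProduct.productMap_right]

theorem crd_nab {R : Type u} [CommRing R] [Algebra k R] (c : Fin n → Fin n → Fin n → k)
    (x y : TrivSqZeroExt k (Fin n → k) →ₐ[k] R) :
    crd (pointOp (nab c) x y) = opv c (crd x) (crd y) := by
  funext l
  unfold pointOp nab
  rw [crd_comp, crd_mk]
  unfold opv
  rw [Pi.add_apply, Pi.add_apply, map_add, map_brR, crd_pm_left, crd_pm_right, ← crd_comp,
    Algebra.TensorProduct.productMap_right]

theorem crd_nabInv {R : Type u} [CommRing R] [Algebra k R] (c : Fin n → Fin n → Fin n → k)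
    (x y : TrivSqZeroExt k (Fin n → k) →ₐ[k] R) :
    crd (pointOp (nabInv c) x y) = opiv c (crd x) (crd y) := by
  funext l
  unfold pointOp nabInv
  rw [crd_comp, crd_mk]
  unfold opiv
  rw [Pi.sub_apply, Pi.sub_apply, map_sub, map_brR, crd_pm_left, crd_pm_right, ← crd_comp,
    Algebra.TensorProduct.productMap_left]

theorem finiteType_tsze : Algebra.FiniteType k (TrivSqZeroExt k (Fin n → k)) := by
  have h : Module.Finite k (TrivSqZeroExt k (Fin n → k)) := by
    exact (inferInstance : Module.Finite k (k × (Fin n → k)))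
  infer_instance

/-- The rack structure on the spectrum of the square-zero extension. -/
noncomputable def rack (c : Fin n → Fin n → Fin n → k) (hc : LeibnizConst c) :
    AffineRack k (TrivSqZeroExt k (Fin n → k)) where
  finiteType := finiteType_tsze
  unit := TrivSqZeroExt.fstHom k k (Fin n → k)
  act := nab c
  actInv := nabInv c
  act_actInv := by
    intro R _ _ x y
    apply crd_ext
    intro i
    rw [crd_nabInv, crd_nab]
    have h1 : brR R c (crd x) (brR R c (crd x) (crd y)) = 0 :=
      (((Z_crd x).br_left c (crd y)).symm).br_zero c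
    have h2 : opiv c (opv c (crd x) (crd y)) (crd x) = crd y := by
      unfold opiv opv
      rw [map_add, h1]
      abel
    rw [h2]
  actInv_act := by
    intro R _ _ x y
    apply crd_ext
    intro i
    rw [crd_nab, crd_nabInv]
    have h1 : brR R c (crd x) (brR R c (crd x) (crd y)) = 0 :=
      (((Z_crd x).br_left c (crd y)).symm).br_zero c
    have h2 : opv c (crd x) (opiv c (crd y) (crd x)) = crd y := by
      unfold opiv opv
      rw [map_sub, h1]
      abel
    rw [h2]
  act_distrib := by
    intro R _ _ x y z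
    apply crd_ext
    intro i
    simp only [crd_nab]
    have h1 : brR R c (brR R c (crd x) (crd y)) (brR R c (crd x) (crd z)) = 0 := by
      have h2 : Z (brR R c (crd x) (crd y)) (crd x) := (Z_crd x).br_left c _
      exact ((h2.symm).br_left c (crd z)).symm.br_zero c
    have h3 := brR_leibniz R c hc (crd x) (crd y) (crd z)
    have h2 : opv c (crd x) (opv c (crd y) (crd z)) =
        opv c (opv c (crd x) (crd y)) (opv c (crd x) (crd z)) := by
      unfold opv
      simp only [map_add, LinearMap.add_apply, h1, h3]
      abel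
    rw [h2]
  actInv_distrib := by
    intro R _ _ x y z
    apply crd_ext
    intro i
    simp only [crd_nabInv]
    have h1 : brR R c (brR R c (crd z) (crd y)) (brR R c (crd z) (crd x)) = 0 := by
      have h2 : Z (brR R c (crd z) (crd y)) (crd z) := (Z_crd z).br_left c _
      exact ((h2.symm).br_left c (crd x)).symm.br_zero c
    have h3 := brR_leibniz R c hc (crd z) (crd y) (crd x)
    have h2 : opiv c (opiv c (crd x) (crd y)) (crd z) =
        opiv c (opiv c (crd x) (crd z)) (opiv c (crd y) (crd z)) := by
      unfold opiv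
      simp only [map_sub, LinearMap.sub_apply, h1, h3]
      abel
    rw [h2]
  act_unit := by
    intro R _ _ x
    have h1 : crd ((Algebra.ofId k R).comp (TrivSqZeroExt.fstHom k k (Fin n → k))) =
        (0 : Fin n → R) := by
      funext j
      rw [crd_comp]
      simp [crd]
    constructor
    · apply crd_ext
      intro i
      rw [crd_nab, h1]
      simp [opv]
    · apply crd_ext
      intro i
      rw [crd_nab, h1]
      simp [opv]

/-- Vectors as tangent vectors at the unit. -/
noncomputable def tvec (c : Fin n → Fin n → Fin n → k) (hc : LeibnizConst c) :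
    (Fin n → k) ≃ₗ[k] tangent (rack c hc) where
  toFun v := ⟨(Fintype.linearCombination k v) ∘ₗ TrivSqZeroExt.sndHom k (Fin n → k), by
    intro f g
    simp only [LinearMap.comp_apply, Fintype.linearCombination_apply]
    show ∑ i, (f * g).snd i • v i = (∑ i, f.snd i • v i) * g.fst + f.fst * ∑ i, g.snd i • v i
    rw [Finset.sum_mul, Finset.mul_sum, ← Finset.sum_add_distrib]
    refine Finset.sum_congr rfl fun i _ => ?_
    simp only [TrivSqZeroExt.snd_mul, Pi.add_apply, Pi.smul_apply, smul_eq_mul,
      MulOpposite.smul_eq_mul_unop, MulOpposite.unop_op]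
    ring⟩
  map_add' := by
    intro v w
    apply Subtype.ext
    ext f
    simp [Fintype.linearCombination_apply, mul_add, Finset.sum_add_distrib]
  map_smul' := by
    intro a v
    apply Subtype.ext
    ext f
    simp [Fintype.linearCombination_apply, Finset.mul_sum, mul_left_comm]
  invFun D i := (D : TrivSqZeroExt k (Fin n → k) →ₗ[k] k) (TrivSqZeroExt.inr (Pi.single i 1))
  left_inv := by
    intro v
    funext i
    simp [Fintype.linearCombination_apply, Pi.single_apply]
  right_inv := by
    intro D
    apply Subtype.ext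
    have hone : (D : TrivSqZeroExt k (Fin n → k) →ₗ[k] k) 1 = 0 := by
      have h2 := D.2 1 1
      rw [mul_one, map_one (rack c hc).unit, mul_one, one_mul] at h2
      linear_combination -h2
    apply TrivSqZeroExt.linearMap_ext
    · intro r
      have h1 : (TrivSqZeroExt.inl r : TrivSqZeroExt k (Fin n → k)) = r • 1 := by
        rw [← TrivSqZeroExt.inl_one, ← TrivSqZeroExt.inl_smul]; simp
      rw [h1, map_smul, map_smul, hone]
      simp
    · intro m
      have h1 : m = ∑ i, m i • (Pi.single i (1 : k) : Fin n → k) := pi_eq_sum_univ' m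
      conv_rhs => rw [h1, TrivSqZeroExt.inr_sum, map_sum]
      simp only [LinearMap.comp_apply, Fintype.linearCombination_apply]
      show ∑ i, m i • _ = _
      refine Finset.sum_congr rfl fun i _ => ?_
      rw [TrivSqZeroExt.inr_smul, map_smul]

theorem tvec_inr (c : Fin n → Fin n → Fin n → k) (hc : LeibnizConst c) (v m : Fin n → k) :
    ((tvec c hc v : tangent (rack c hc)) : TrivSqZeroExt k (Fin n → k) →ₗ[k] k)
      (TrivSqZeroExt.inr m) = ∑ i, m i * v i := by
  show Fintype.linearCombination k v
    (TrivSqZeroExt.snd (TrivSqZeroExt.inr m : TrivSqZeroExt k (Fin n → k))) = _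
  rw [TrivSqZeroExt.snd_inr, Fintype.linearCombination_apply]
  rfl

theorem tvec_single (c : Fin n → Fin n → Fin n → k) (hc : LeibnizConst c) (v : Fin n → k)
    (i : Fin n) :
    ((tvec c hc v : tangent (rack c hc)) : TrivSqZeroExt k (Fin n → k) →ₗ[k] k)
      (TrivSqZeroExt.inr (Pi.single i 1)) = v i := by
  rw [tvec_inr, Finset.sum_eq_single i]
  · rw [Pi.single_eq_same, one_mul]
  · intro j _ hj; rw [Pi.single_eq_of_ne hj, zero_mul]
  · intro h; exact absurd (Finset.mem_univ _) h

theorem tvec_one (c : Fin n → Fin n → Fin n → k) (hc : LeibnizConst c) (v : Fin n → k) :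
    ((tvec c hc v : tangent (rack c hc)) : TrivSqZeroExt k (Fin n → k) →ₗ[k] k) 1 = 0 := by
  show Fintype.linearCombination k v
    (TrivSqZeroExt.snd (1 : TrivSqZeroExt k (Fin n → k))) = _
  rw [TrivSqZeroExt.snd_one, map_zero]

theorem bracket_tvec (c : Fin n → Fin n → Fin n → k) (hc : LeibnizConst c) (v w : Fin n → k) :
    bracket (rack c hc) (tvec c hc v : tangent (rack c hc)) (tvec c hc w : tangent (rack c hc)) =
      ((tvec c hc (brR k c v w) : tangent (rack c hc)) :
        TrivSqZeroExt k (Fin n → k) →ₗ[k] k) := by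
  set D : TrivSqZeroExt k (Fin n → k) →ₗ[k] k :=
    ((tvec c hc v : tangent (rack c hc)) : TrivSqZeroExt k (Fin n → k) →ₗ[k] k) with hD
  set E : TrivSqZeroExt k (Fin n → k) →ₗ[k] k :=
    ((tvec c hc w : tangent (rack c hc)) : TrivSqZeroExt k (Fin n → k) →ₗ[k] k) with hE
  have hbr : ∀ f, bracket (rack c hc) D E f =
      LinearMap.mul' k k (TensorProduct.map D E (nab c f)) := fun f => rfl
  apply TrivSqZeroExt.linearMap_ext
  · intro r
    have h1 : (TrivSqZeroExt.inl r : TrivSqZeroExt k (Fin n → k)) = r • 1 := by
      rw [← TrivSqZeroExt.inl_one, ← TrivSqZeroExt.inl_smul]; simp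
    rw [h1, map_smul, map_smul, tvec_one, hbr, map_one, Algebra.TensorProduct.one_def,
      TensorProduct.map_tmul, hD, tvec_one]
    simp
  · intro m
    have h1 : m = ∑ i, m i • (Pi.single i (1 : k) : Fin n → k) := pi_eq_sum_univ' m
    rw [h1, TrivSqZeroExt.inr_sum, map_sum, map_sum]
    refine Finset.sum_congr rfl fun l _ => ?_
    rw [TrivSqZeroExt.inr_smul, map_smul, map_smul, tvec_single, hbr]
    congr 1
    have h2 : nab c (TrivSqZeroExt.inr (Pi.single l 1)) =
        (1 : TrivSqZeroExt k (Fin n → k)) ⊗ₜ[k] (TrivSqZeroExt.inr (Pi.single l 1) :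
          TrivSqZeroExt k (Fin n → k)) + ∑ i, ∑ j, c i j l •
          ((TrivSqZeroExt.inr (Pi.single i 1) : TrivSqZeroExt k (Fin n → k)) ⊗ₜ[k]
            (TrivSqZeroExt.inr (Pi.single j 1) : TrivSqZeroExt k (Fin n → k))) := by
      have h3 := crd_mk (k := k)
        (R := TrivSqZeroExt k (Fin n → k) ⊗[k] TrivSqZeroExt k (Fin n → k))
        (opv c (crd Algebra.TensorProduct.includeLeft) (crd Algebra.TensorProduct.includeRight))
        (Z_opv c (Z_crd _)) l
      refine h3.trans ?_
      unfold opv
      rw [Pi.add_apply, brR_apply]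
      congr 1
      refine Finset.sum_congr rfl fun i _ => Finset.sum_congr rfl fun j _ => ?_
      congr 1
      show ((TrivSqZeroExt.inr (Pi.single i 1) : TrivSqZeroExt k (Fin n → k)) ⊗ₜ[k]
        (1 : TrivSqZeroExt k (Fin n → k))) * ((1 : TrivSqZeroExt k (Fin n → k)) ⊗ₜ[k]
        (TrivSqZeroExt.inr (Pi.single j 1) : TrivSqZeroExt k (Fin n → k))) = _
      rw [Algebra.TensorProduct.tmul_mul_tmul, mul_one, one_mul]
    rw [h2, map_add, map_add, TensorProduct.map_tmul, LinearMap.mul'_apply]
    have h4 : D 1 = 0 := tvec_one c hc v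
    rw [h4, zero_mul, zero_add, map_sum, map_sum, brR_apply]
    refine Finset.sum_congr rfl fun i _ => ?_
    rw [map_sum, map_sum]
    refine Finset.sum_congr rfl fun j _ => ?_
    rw [map_smul, map_smul, TensorProduct.map_tmul, LinearMap.mul'_apply]
    have h5 : D (TrivSqZeroExt.inr (Pi.single i 1)) = v i := tvec_single c hc v i
    have h6 : E (TrivSqZeroExt.inr (Pi.single j 1)) = w j := tvec_single c hc w j
    rw [h5, h6]

end Construction

/-- A Leibniz algebra over a field is the Leibniz algebra of an affine algebraic rack if and only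
if it is finite-dimensional. -/
theorem result (k : Type u) [Field k] (q : Type v) [AddCommGroup q] [Module k q]
    (br : q →ₗ[k] q →ₗ[k] q)
    (hbr : ∀ x y z : q, br x (br y z) = br (br x y) z + br y (br x z)) :
    IsAlgebraic k q br ↔ FiniteDimensional k q := by
  constructor
  · rintro ⟨A, _, _, Q, e, he, hD, -⟩
    obtain ⟨s, r, hr⟩ := exists_evaluation Q
    refine Module.Finite.of_injective (r ∘ₗ e) ?_
    rw [injective_iff_map_eq_zero]
    intro x hx
    have h1 := hr (e x) ((hD _).2 ⟨x, rfl⟩) hx
    exact he (h1.trans (map_zero e).symm)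
  · intro hfin
    let b := Module.finBasis k q
    set n := Module.finrank k q
    let c : Fin n → Fin n → Fin n → k := fun i j l => b.equivFun (br (b i) (b j)) l
    -- the bracket in coordinates
    have hco : ∀ x y : q, b.equivFun (br x y) = brR k c (b.equivFun x) (b.equivFun y) := by
      intro x y
      have hx : x = ∑ i, b.equivFun x i • b i := (b.sum_equivFun x).symm
      have hy : y = ∑ i, b.equivFun y i • b i := (b.sum_equivFun y).symm
      funext l
      rw [brR_apply]
      conv_lhs => rw [hx, hy]
      simp only [map_sum, LinearMap.sum_apply, map_smul, LinearMap.smul_apply, Finset.sum_apply,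
        Pi.smul_apply, smul_eq_mul]
      rw [Finset.sum_comm]
      refine Finset.sum_congr rfl fun i _ => ?_
      rw [Finset.mul_sum]
      refine Finset.sum_congr rfl fun j _ => ?_
      show _ = b.equivFun (br (b j) (b i)) l * _
      ring
    have hc : LeibnizConst c := by
      intro i j p l
      have h1 := congrFun (congrArg b.equivFun (hbr (b i) (b j) (b p))) l
      rw [map_add] at h1
      simp only [hco, Pi.add_apply] at h1
      have hb : ∀ i, b.equivFun (b i) = Pi.single i 1 := by
        intro i
        funext j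
        rw [Module.Basis.equivFun_self]
        simp [Pi.single_apply, eq_comm]
      simp only [hb] at h1
      have h2 : ∀ (i : Fin n) (w : Fin n → k), brR k c (Pi.single i 1) w l = ∑ m, c i m l * w m := by
        intro i w
        rw [brR_apply, Finset.sum_eq_single i]
        · simp
        · intro b _ hb'; rw [Pi.single_eq_of_ne hb']; simp
        · intro h; exact absurd (Finset.mem_univ _) h
      have h3 : ∀ (i : Fin n) (w : Fin n → k), brR k c w (Pi.single i 1) l = ∑ m, c m i l * w m := by
        intro i w
        rw [brR_apply]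
        refine Finset.sum_congr rfl fun m _ => ?_
        rw [Finset.sum_eq_single i]
        · simp
        · intro b _ hb'; rw [Pi.single_eq_of_ne hb']; simp
        · intro h; exact absurd (Finset.mem_univ _) h
      rw [h2, h2, h3] at h1
      have h4 : ∀ i j m, brR k c (Pi.single i 1) (Pi.single j 1) m = c i j m := by
        intro i j m
        rw [brR_single]
        rfl
      simp only [h4] at h1
      calc ∑ m, c j p m * c i m l = ∑ m, c i m l * c j p m :=
            Finset.sum_congr rfl fun m _ => mul_comm _ _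
        _ = _ := h1
        _ = _ := by
            congr 1
            · exact Finset.sum_congr rfl fun m _ => mul_comm _ _
            · exact Finset.sum_congr rfl fun m _ => mul_comm _ _
    let e' : q ≃ₗ[k] tangent (rack c hc) := b.equivFun.trans (tvec c hc)
    refine ⟨TrivSqZeroExt k (Fin n → k), inferInstance, inferInstance, rack c hc,
      (tangent (rack c hc)).subtype ∘ₗ e'.toLinearMap, ?_, ?_, ?_⟩
    · exact Subtype.val_injective.comp e'.injective
    · intro D
      constructor
      · intro hD
        exact ⟨e'.symm ⟨D, hD⟩, congrArg Subtype.val (e'.apply_symm_apply ⟨D, hD⟩)⟩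
      · rintro ⟨x, rfl⟩
        exact (e' x).2
    · intro x y
      have h1 := bracket_tvec c hc (b.equivFun x) (b.equivFun y)
      rw [← hco] at h1
      exact h1.symm

end Pool.Agent.Results.MP_133c3f_al.AlgebraicIffFinite
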